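import Pool.Agent.H71.FX.Targets

/-!
# Prefix vocabulary classes, row CA: the number of elements of a rectangle
-/

set_option autoImplicit false

namespace Pool.Agent.H17.FX

open Pool.Agent.H71.FX Pool.Agent.H71.PF Pool.Agent.H8.PL

/-- going down after going up -/
theorem down_up {α Q : Type} {m : Rc α Q} (hRu : m.Ru) (x : α) (j : ℕ)
    (h : ∀ i < j, ¬ m.tp (m.u^[i] x)) : m.d^[j] (m.u^[j] x) = x := by
  induction j with
  | zero => rfl
  | succ j ih =>
    rw [Function.iterate_succ_apply' m.u, Function.iterate_succ_apply m.d,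
      ((hRu (m.u^[j] x)).1.2.2.1 (h j (Nat.lt_succ_self j))).1]
    exact ih fun i hi => h i (Nat.lt_succ_of_lt hi)

theorem pf_CA (it : T_IT) (cr : T_CR) : T_CA := by
  classical
  intro α Q m hfin hRu hG huniq z W H hz hW hH hC
  have h0 : ∀ b < H, (m.lf (m.u^[b] z) ↔ (0 : ℕ) = 0) ∧ (m.rt (m.u^[b] z) ↔ 0 + 1 = W) ∧
      (m.bt (m.u^[b] z) ↔ b = 0) ∧ (m.tp (m.u^[b] z) ↔ b + 1 = H) ∧
      (b + 1 < H → m.u (m.u^[b] z) = m.u^[b + 1] z) := fun b hb => hC 0 b hW hb
  have hback : ∀ a b, a < W → b < H → ∀ c, c ≤ a →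
      m.l^[c] (m.r^[a] (m.u^[b] z)) = m.r^[a - c] (m.u^[b] z) := by
    intro a b ha hb c hc
    have h1 : m.r^[a] (m.u^[b] z) = m.r^[c] (m.r^[a - c] (m.u^[b] z)) := by
      rw [← Function.iterate_add_apply]
      congr 1
      omega
    rw [h1]
    refine (it α Q m hRu _ c fun i hi => ?_).1
    rw [← Function.iterate_add_apply]
    intro h2
    have h3 := (hC (i + (a - c)) b (by omega) hb).2.1.1 h2
    omega
  let p : Fin W × Fin H → α := fun q => m.r^[q.1.1] (m.u^[q.2.1] z)
  have hinj : ∀ a a' b b', a < W → a' < W → b < H → b' < H →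
      m.r^[a] (m.u^[b] z) = m.r^[a'] (m.u^[b'] z) → a ≤ a' → a = a' := by
    intro a a' b b' ha ha' hb hb' he hle
    have h1 := hback a b ha hb a le_rfl
    have h2 := hback a' b' ha' hb' a hle
    rw [he, h2, Nat.sub_self] at h1
    have h3 : m.lf (m.u^[b] z) := (h0 b hb).1.2 rfl
    have h4 : m.r^[a' - a] (m.u^[b'] z) = m.u^[b] z := h1
    rw [← h4] at h3
    have h5 := (hC (a' - a) b' (by omega) hb').1.1 h3
    omega
  have hinj2 : ∀ b b', b < H → b' < H → m.u^[b] z = m.u^[b'] z → b ≤ b' → b = b' := by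
    intro b b' hb hb' he hle
    have h1 : m.d^[b] (m.u^[b] z) = z := down_up hRu z b fun i hi h => by
      have := (h0 i (by omega)).2.2.2.1.1 h
      omega
    have h2 : m.u^[b'] z = m.u^[b] (m.u^[b' - b] z) := by
      rw [← Function.iterate_add_apply]
      congr 1
      omega
    have h3 : m.d^[b] (m.u^[b] (m.u^[b' - b] z)) = m.u^[b' - b] z :=
      down_up hRu _ b fun i hi h => by
        rw [← Function.iterate_add_apply] at h
        have := (h0 (i + (b' - b)) (by omega)).2.2.2.1.1 h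
        omega
    rw [← h2, ← he, h1] at h3
    have h4 : m.bt z := hz.2
    rw [h3] at h4
    have h5 := (h0 (b' - b) (by omega)).2.2.1.1 h4
    omega
  have hbij : Function.Bijective p := by
    constructor
    · rintro ⟨a, b⟩ ⟨a', b'⟩ he
      have he' : m.r^[a.1] (m.u^[b.1] z) = m.r^[a'.1] (m.u^[b'.1] z) := he
      have ha : a.1 = a'.1 := by
        rcases le_total a.1 a'.1 with h | h
        · exact hinj _ _ _ _ a.2 a'.2 b.2 b'.2 he' h
        · exact (hinj _ _ _ _ a'.2 a.2 b'.2 b.2 he'.symm h).symm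
      have h1 := hback a.1 b.1 a.2 b.2 a.1 le_rfl
      have h2 := hback a'.1 b'.1 a'.2 b'.2 a.1 ha.le
      rw [he', h2, ← ha, Nat.sub_self] at h1
      have h3 : m.u^[b'.1] z = m.u^[b.1] z := h1
      have hb : b.1 = b'.1 := by
        rcases le_total b.1 b'.1 with h | h
        · exact hinj2 _ _ b.2 b'.2 h3.symm h
        · exact (hinj2 _ _ b'.2 b.2 h3 h).symm
      exact Prod.ext (Fin.ext ha) (Fin.ext hb)
    · intro x
      obtain ⟨z', i, j, hz', hi, hj, hx⟩ := cr α Q m hfin hRu hG x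
      have hzz : z' = z := huniq z' z hz' hz
      subst hzz
      have hiH : i < H := by
        by_contra hcon
        refine hi (H - 1) (by omega) ((h0 (H - 1) (by omega)).2.2.2.1.2 (by omega))
      have hjW : j < W := by
        by_contra hcon
        refine hj (W - 1) (by omega) ((hC (W - 1) i (by omega) hiH).2.1.2 (by omega))
      exact ⟨(⟨j, hjW⟩, ⟨i, hiH⟩), hx.symm⟩
  rw [← Nat.card_congr (Equiv.ofBijective p hbij), Nat.card_prod, Nat.card_fin, Nat.card_fin]

end Pool.Agent.H17.FX
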