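import Pool.Agent.H71.FX.Targets

/-!
# Prefix vocabulary classes, row CE: the lower left corner and its rectangle
-/

set_option autoImplicit false

namespace Pool.Agent.H17.FX

open Pool.Agent.H71.FX Pool.Agent.H71.PF Pool.Agent.H8.PL

theorem pf_CE (re : T_RE) (it : T_IT) (co : T_CO) (ua : T_UA) (tr : T_TR) : T_CE := by
  classical
  intro α Q m hfin hRu hG z hz
  obtain ⟨j, hj, hjm⟩ := re α Q m hfin hRu z hz.1
  have hex := ua α Q m hfin hRu hG z
  obtain ⟨i, hi, him⟩ : ∃ i, m.tp (m.u^[i] z) ∧ ∀ b < i, ¬ m.tp (m.u^[b] z) :=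
    ⟨Nat.find hex, Nat.find_spec hex, fun b hb => Nat.find_min hex hb⟩
  refine ⟨j + 1, i + 1, Nat.succ_pos _, Nat.succ_pos _, ?_⟩
  intro a b ha hb
  have ha' : ∀ c < a, ¬ m.rt (m.r^[c] z) := fun c hc => hjm c (by omega)
  have hb' : ∀ c < b, ¬ m.tp (m.u^[c] z) := fun c hc => him c (by omega)
  obtain ⟨c1, c2, c3, c4, c5, c6, c7⟩ := co α Q m hRu z a b ha' hb'
  refine ⟨?_, ?_, ?_, ?_, ?_⟩
  · rw [c6]
    constructor
    · intro h
      by_contra h0
      exact (it α Q m hRu z a ha').2.2.2 (Nat.pos_of_ne_zero h0) h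
    · rintro rfl
      exact hz.1
  · rw [c4]
    constructor
    · intro h
      by_contra h0
      exact hjm a (by omega) h
    · intro h
      have h1 : a = j := by omega
      rw [h1]
      exact hj
  · rw [c1, c7]
    constructor
    · intro h
      by_contra h0
      have h1 := (it α Q m.tr (tr α Q m hRu) z b hb').2.2.2 (Nat.pos_of_ne_zero h0)
      exact h1 h
    · rintro rfl
      exact hz.2
  · rw [c1, c5]
    constructor
    · intro h
      by_contra h0
      exact him b (by omega) h
    · intro h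
      have h1 : b = i := by omega
      rw [h1]
      exact hi
  · intro h
    have hb'' : ∀ c < b + 1, ¬ m.tp (m.u^[c] z) := fun c hc => him c (by omega)
    have d1 := (co α Q m hRu z a (b + 1) ha' hb'').1
    rw [c1, d1, Function.iterate_succ_apply']

end Pool.Agent.H17.FX
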