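import Pool.Agent.H71.FX.Targets

/-!
# Prefix vocabulary classes, row RE: rows end on the right
-/

set_option autoImplicit false

namespace Pool.Agent.H17.FX

open Pool.Agent.H71.FX Pool.Agent.H71.PF Pool.Agent.H8.PL

theorem pf_RE (it : T_IT) : T_RE := by
  classical
  intro α Q m hfin hRu x hx
  have key : ∃ j, m.rt (m.r^[j] x) := by
    by_contra hcon
    push Not at hcon
    obtain ⟨i, j, hne, hij⟩ := Finite.exists_ne_map_eq_of_infinite (fun j : ℕ => m.r^[j] x)
    wlog hlt : i < j generalizing i j
    · exact this j i hne.symm hij.symm (lt_of_le_of_ne (not_lt.1 hlt) hne.symm)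
    have h1 : m.l^[i] (m.r^[i] x) = x := (it α Q m hRu x i fun a _ => hcon a).1
    have h2 : m.r^[j] x = m.r^[i] (m.r^[j - i] x) := by
      rw [← Function.iterate_add_apply]
      congr 1
      omega
    have h3 : m.l^[i] (m.r^[i] (m.r^[j - i] x)) = m.r^[j - i] x :=
      (it α Q m hRu (m.r^[j - i] x) i fun a _ => by
        rw [← Function.iterate_add_apply]
        exact hcon _).1
    have h4 : x = m.r^[j - i] x := by
      have h5 : m.r^[i] x = m.r^[j] x := hij
      rw [h2] at h5
      rw [← h5, h1] at h3
      exact h3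
    have h6 := (it α Q m hRu x (j - i) fun a _ => hcon a).2.2.2 (by omega)
    rw [← h4] at h6
    exact h6 hx
  exact ⟨Nat.find key, Nat.find_spec key, fun i hi => Nat.find_min key hi⟩

end Pool.Agent.H17.FX
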